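import Mathlib

/-!
# Norm elements in the integral group ring of a finite abelian group

If the factor group `Γ / Δ` is not cyclic, then a function on `Γ` with values in a torsion-free group
which is invariant under `Δ`, and whose products over the cosets of all larger subgroups are trivial,
is trivial.
-/

set_option autoImplicit false

namespace Pool.Agent.J4.H3.SC

variable {Γ : Type} [CommGroup Γ] [Finite Γ]

/-- an ideal of the group ring which contains the norm elements of the subgroups larger than `Δ` and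
the elements `δ - 1`, `δ` in `Δ`, contains a nonzero integer, if `Γ / Δ` is not cyclic -/
lemma exists_int (Δ : Subgroup Γ) (hΔ : ¬ IsCyclic (Γ ⧸ Δ)) (I : Ideal (MonoidAlgebra ℤ Γ))
    (h1 : ∀ δ ∈ Δ, MonoidAlgebra.of ℤ Γ δ - 1 ∈ I)
    (h2 : ∀ D : Subgroup Γ, Δ < D →
      ∑ d ∈ (Set.toFinite (D : Set Γ)).toFinset, MonoidAlgebra.of ℤ Γ d ∈ I) :
    ∃ n : ℤ, n ≠ 0 ∧ ((n : ℤ) : MonoidAlgebra ℤ Γ) ∈ I := by
  by_contra hcon
  push Not at hcon
  let S : Submonoid (MonoidAlgebra ℤ Γ) :=
    (nonZeroDivisors ℤ).map (Int.castRingHom (MonoidAlgebra ℤ Γ))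
  have hdis : Disjoint (I : Set (MonoidAlgebra ℤ Γ)) (S : Set (MonoidAlgebra ℤ Γ)) := by
    rw [Set.disjoint_left]
    rintro x hx ⟨n, hn, rfl⟩
    exact hcon n (nonZeroDivisors.ne_zero hn) hx
  obtain ⟨P, hP, hIP, hPS⟩ := Ideal.exists_le_prime_disjoint I S hdis
  have hn : ∀ n : ℤ, n ≠ 0 → ((n : ℤ) : MonoidAlgebra ℤ Γ) ∉ P := by
    intro n hn hmem
    exact (Set.disjoint_left.mp hPS) hmem ⟨n, mem_nonZeroDivisors_of_ne_zero hn, rfl⟩
  let lam : Γ →* (MonoidAlgebra ℤ Γ ⧸ P) :=
    (Ideal.Quotient.mk P : MonoidAlgebra ℤ Γ →* _).comp (MonoidAlgebra.of ℤ Γ)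
  have hlam : ∀ δ ∈ Δ, lam δ = 1 := by
    intro δ hδ
    have h3 := hIP (h1 δ hδ)
    have h4 := (Ideal.Quotient.eq (I := P)).mpr h3
    exact h4
  -- the kernel
  let D : Subgroup Γ :=
    { carrier := {γ | lam γ = 1}
      mul_mem' := fun {a b} ha hb => by
        change lam (a * b) = 1
        rw [map_mul, show lam a = 1 from ha, show lam b = 1 from hb, one_mul]
      one_mem' := map_one lam
      inv_mem' := fun {a} ha => by
        change lam a⁻¹ = 1
        have h3 : lam a⁻¹ * lam a = 1 := by rw [← map_mul, inv_mul_cancel, map_one]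
        rwa [show lam a = 1 from ha, mul_one] at h3 }
  have hDD : Δ = D := by
    by_contra hne
    have hlt : Δ < D := lt_of_le_of_ne (fun δ hδ => hlam δ hδ) hne
    have h3 := (Ideal.Quotient.eq_zero_iff_mem).mpr (hIP (h2 D hlt))
    rw [map_sum] at h3
    have h4 : ∀ d ∈ (Set.toFinite (D : Set Γ)).toFinset,
        (Ideal.Quotient.mk P) (MonoidAlgebra.of ℤ Γ d) = 1 := by
      intro d hd
      rw [Set.Finite.mem_toFinset] at hd
      exact hd
    rw [Finset.sum_congr rfl h4, Finset.sum_const, nsmul_eq_mul, mul_one] at h3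
    set c := (Set.toFinite (D : Set Γ)).toFinset.card with hc
    have hc0 : (c : ℤ) ≠ 0 := by
      have : 0 < c := Finset.card_pos.mpr ⟨1, by rw [Set.Finite.mem_toFinset]; exact D.one_mem⟩
      exact_mod_cast this.ne'
    apply hn c hc0
    rw [← Ideal.Quotient.eq_zero_iff_mem]
    simpa using h3
  apply hΔ
  have hinj : Function.Injective (QuotientGroup.lift Δ lam hlam) := by
    intro x y
    refine QuotientGroup.induction_on x fun a => QuotientGroup.induction_on y fun b => ?_
    intro hab
    have hab' : lam a = lam b := hab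
    rw [QuotientGroup.eq, hDD]
    change lam (a⁻¹ * b) = 1
    rw [map_mul, ← hab', ← map_mul, inv_mul_cancel, map_one]
  exact isCyclic_of_injective_ringHom _ hinj

/-- a function on `Γ` with values in a torsion-free group which is invariant under `Δ`, and whose
products over the cosets of all larger subgroups are trivial, is trivial if `Γ / Δ` is not cyclic -/
theorem eq_one_of_norms {M : Type} [CommGroup M] (hM : ∀ (x : M) (n : ℕ), 0 < n → x ^ n = 1 → x = 1)
    (Δ : Subgroup Γ) (hΔ : ¬ IsCyclic (Γ ⧸ Δ)) (v : Γ → M)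
    (h1 : ∀ γ, ∀ δ ∈ Δ, v (γ * δ) = v γ)
    (h2 : ∀ D : Subgroup Γ, Δ < D → ∀ γ, ∏ d ∈ (Set.toFinite (D : Set Γ)).toFinset, v (γ * d) = 1)
    (γ : Γ) : v γ = 1 := by
  let ρ : Γ →* Module.End ℤ (Γ → Additive M) :=
    { toFun := fun c =>
        { toFun := fun w x => w (x * c)
          map_add' := fun _ _ => rfl
          map_smul' := fun _ _ => rfl }
      map_one' := by
        apply LinearMap.ext
        intro w
        funext x
        change w (x * 1) = w x
        rw [mul_one]
      map_mul' := fun a b => by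
        apply LinearMap.ext
        intro w
        funext x
        change w (x * (a * b)) = w (x * a * b)
        rw [mul_assoc] }
  let Lf := MonoidAlgebra.lift ℤ (Module.End ℤ (Γ → Additive M)) Γ ρ
  let w : Γ → Additive M := fun c => Additive.ofMul (v c)
  let I : Ideal (MonoidAlgebra ℤ Γ) :=
    { carrier := {r | Lf r w = 0}
      add_mem' := fun {a b} ha hb => by
        change Lf (a + b) w = 0
        rw [map_add, LinearMap.add_apply, show Lf a w = 0 from ha, show Lf b w = 0 from hb, add_zero]
      zero_mem' := by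
        change Lf 0 w = 0
        rw [map_zero, LinearMap.zero_apply]
      smul_mem' := fun a b hb => by
        change Lf (a * b) w = 0
        rw [map_mul, Module.End.mul_apply, show Lf b w = 0 from hb, map_zero] }
  have hof : ∀ (c x : Γ), Lf (MonoidAlgebra.of ℤ Γ c) w x = Additive.ofMul (v (x * c)) := by
    intro c x
    have h3 : Lf (MonoidAlgebra.of ℤ Γ c) = ρ c := MonoidAlgebra.lift_of _ _
    rw [h3]
    rfl
  obtain ⟨n, hn, hnI⟩ := exists_int Δ hΔ I
    (by
      intro δ hδ
      change Lf _ w = 0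
      rw [map_sub, map_one, LinearMap.sub_apply, Module.End.one_apply, sub_eq_zero]
      funext x
      rw [hof, h1 x δ hδ])
    (by
      intro D hD
      change Lf _ w = 0
      rw [map_sum]
      funext x
      rw [LinearMap.sum_apply, Finset.sum_apply]
      rw [Finset.sum_congr rfl fun d _ => hof d x]
      have h3 := h2 D hD x
      exact congrArg Additive.ofMul h3)
  have h4 : Lf ((n : ℤ) : MonoidAlgebra ℤ Γ) w = 0 := hnI
  rw [map_intCast] at h4
  have h5 := congrFun h4 γ
  have h6 : n • (w γ) = 0 := by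
    have h7 : ((n : Module.End ℤ (Γ → Additive M)) w) γ = n • (w γ) := by
      rw [Module.End.intCast_apply]
      rfl
    rw [← h7]
    exact h5
  have h8 : v γ ^ n = 1 := h6
  have h9 : v γ ^ n.natAbs = 1 := by
    rcases Int.natAbs_eq n with h | h
    · rw [h, zpow_natCast] at h8
      exact h8
    · rw [h, zpow_neg, zpow_natCast, inv_eq_one] at h8
      exact h8
  exact hM _ _ (Int.natAbs_pos.mpr hn) h9

end Pool.Agent.J4.H3.SC
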