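import Pool.Agent.J4.H37.Stark.Field
import Pool.Agent.J4.H3.SC.Grp

/-!
# Inductive invariants: the characters with values in cyclic extensions of the rational numbers
-/

set_option autoImplicit false
set_option linter.unusedSectionVars false

namespace Pool.Agent.J4.H3.SC

open NumberField NumberField.ComplexEmbedding Pool.Agent.R389 Pool.Agent.K4H74 Pool.Agent.K4H74.ST
  Pool.Agent.K4H77.SL Pool.Agent.K4H34 Pool.Agent.K4H74.SK Pool.Agent.K4H34.AL
  Pool.Agent.J4.H37.Stark

/-- `F` is contained in a cyclotomic field. -/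
def IsAbField (F : Subfield ℂ) : Prop :=
  ∃ f : ℕ, 0 < f ∧ F ≤ Subfield.closure {z : ℂ | z ^ f = 1}

/-- The conductor of `F`: the least `f ≥ 1` such that `F` is contained in the field of the `f`-th
roots of unity. -/
noncomputable def cond (F : Subfield ℂ) : ℕ :=
  sInf {f : ℕ | 0 < f ∧ F ≤ Subfield.closure {z : ℂ | z ^ f = 1}}

/-- `F` is a cyclic extension of `ℚ`: it is contained in a cyclotomic field, and there is an
automorphism of `ℂ` which fixes only the rational numbers in `F`. -/
def IsCycField (F : Subfield ℂ) : Prop :=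
  IsAbField F ∧ ∃ σ : ℂ ≃+* ℂ, ∀ z ∈ F, σ z = z → ∃ q : ℚ, z = q

lemma cond_spec {F : Subfield ℂ} (h : IsAbField F) :
    0 < cond F ∧ F ≤ Subfield.closure {z : ℂ | z ^ cond F = 1} :=
  Nat.sInf_mem (s := {f : ℕ | 0 < f ∧ F ≤ Subfield.closure {z : ℂ | z ^ f = 1}}) h

lemma cond_le {F : Subfield ℂ} {f : ℕ} (hf : 0 < f)
    (h : F ≤ Subfield.closure {z : ℂ | z ^ f = 1}) : cond F ≤ f :=
  Nat.sInf_le (s := {f : ℕ | 0 < f ∧ F ≤ Subfield.closure {z : ℂ | z ^ f = 1}}) ⟨hf, h⟩

lemma IsCycField.mono {F F' : Subfield ℂ} (h : IsCycField F) (hF : F' ≤ F) : IsCycField F' := by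
  obtain ⟨⟨f, hf, h1⟩, σ, hσ⟩ := h
  exact ⟨⟨f, hf, hF.trans h1⟩, σ, fun z hz => hσ z (hF hz)⟩

/-- the values of a character are sums of roots of unity -/
lemma isChar_values {G : Type} [Group G] [Finite G] {χ : G → ℂ} (h : IsChar χ) (g : G) :
    χ g ∈ Subfield.closure {z : ℂ | z ^ Nat.card G = 1} := by
  obtain ⟨V, _, _, _, ρ, rfl⟩ := h
  unfold Representation.character
  rw [Module.End.trace_eq_sum_roots_charpoly_of_splits (IsAlgClosed.splits _)]
  have key : ∀ μ ∈ (LinearMap.charpoly (ρ g)).roots,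
      μ ∈ Subfield.closure {z : ℂ | z ^ Nat.card G = 1} := by
    intro μ hμ
    have h1 : (LinearMap.charpoly (ρ g)).IsRoot μ := (Polynomial.mem_roots'.mp hμ).2
    have h2 := (Module.End.hasEigenvalue_iff_isRoot_charpoly (ρ g) μ).mpr h1
    obtain ⟨v, hv⟩ := h2.exists_hasEigenvector
    have h3 : ∀ n : ℕ, ((ρ g) ^ n) v = μ ^ n • v := fun n => by
      induction n with
      | zero => simp
      | succ n ih =>
        rw [pow_succ', Module.End.mul_apply, ih, map_smul, hv.apply_eq_smul, smul_smul, pow_succ]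
    have h4 := h3 (Nat.card G)
    rw [← map_pow, pow_card_eq_one', map_one, Module.End.one_apply] at h4
    have h5 : μ ^ Nat.card G = 1 := by
      have h6 : (μ ^ Nat.card G - 1) • v = 0 := by
        rw [sub_smul, one_smul, ← h4, sub_self]
      rcases smul_eq_zero.mp h6 with h7 | h7
      · exact sub_eq_zero.mp h7
      · exact absurd h7 hv.2
    exact Subfield.subset_closure h5
  generalize (LinearMap.charpoly (ρ g)).roots = s at key
  exact multiset_sum_mem s key

variable {M : Type} [CommGroup M]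

/-- **The characters with values in a cyclic field.** -/
theorem cyc_case {A : ArtinInvariant M} {m : ℕ} (hm : m ≠ 0)
    (hM : ∀ (x : M) (n : ℕ), 0 < n → x ^ n = 1 → x = 1) (hR : TrivOne A) (hO : TrivOdd A)
    (hA : ∀ F : Subfield ℂ, IsCycField F →
      ∀ (K L : Type) [Field K] [NumberField K] [Field L] [NumberField L] [Algebra K L]
      [IsGalois K L], IsTotallyComplex K →
      (∀ P : Ideal (𝓞 L), P.IsMaximal → ∀ g ∈ inertia K P, g = 1) →
      (∀ P : Ideal (𝓞 L), P.IsMaximal → (m : 𝓞 L) ∈ P → ∀ g ∈ decomp K P, g = 1) →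
      ∀ ψ : (L ≃ₐ[K] L) →* ℂˣ, Function.Injective ψ → orderOf ψ = cond F →
        A.val K L (trace F (cond F) ψ) = 1) :
    ∀ (n : ℕ) (F : Subfield ℂ), IsCycField F → cond F = n →
      ∀ (K L : Type) [Field K] [NumberField K] [Field L]
      [NumberField L] [Algebra K L] [IsGalois K L] (χ : (L ≃ₐ[K] L) → ℂ), IsChar χ →
      (∀ g, χ g ∈ F) → A.val K L χ = 1 := by
  intro n
  induction n using Nat.strong_induction_on with
  | _ n ih =>
    intro F hF hn K L _ _ _ _ _ _ χ hχ hval
    obtain ⟨hf, hFf⟩ := cond_spec hF.1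
    obtain ⟨k, hk, h1⟩ := main_trace (A := A) hm hf hFf hR hO (by
      intro K' L' _ _ _ _ _ _ hK' hin hde ψ hψ hψf
      rcases eq_or_ne (orderOf ψ) (cond F) with h | h
      · exact hA F hF K' L' hK' hin hde ψ hψ h
      · have hdvd : orderOf ψ ∣ cond F := orderOf_dvd_of_pow_eq_one hψf
        have hpos : 0 < orderOf ψ := Nat.pos_of_dvd_of_pos hdvd hf
        have hlt : orderOf ψ < cond F := lt_of_le_of_ne (Nat.le_of_dvd hf hdvd) h
        let F' : Subfield ℂ := F ⊓ Subfield.closure {z : ℂ | z ^ orderOf ψ = 1}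
        have hF' : IsCycField F' := hF.mono inf_le_left
        have hc : cond F' ≤ orderOf ψ := cond_le hpos inf_le_right
        refine ih (cond F') (by omega) F' hF' rfl K' L' _ (trace_isChar F (cond F) ψ) fun g => ?_
        refine Subfield.mem_inf.mpr ⟨trace_mem hf hFf ψ hψf g, ?_⟩
        unfold trace
        refine sum_mem fun t _ => pow_mem (Subfield.subset_closure ?_) t
        change ((ψ g : ℂˣ) : ℂ) ^ orderOf ψ = 1
        rw [← Units.val_pow_eq_pow_val, ← MonoidHom.pow_apply, pow_orderOf_eq_one]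
        rfl) K L hχ hval
    exact hM _ k hk h1

lemma agree {f : ℕ} {σ σ' : ℂ →+* ℂ} (h : ∀ z : ℂ, z ^ f = 1 → σ z = σ' z) {z : ℂ}
    (hz : z ∈ Subfield.closure {z : ℂ | z ^ f = 1}) : σ z = σ' z :=
  RingHom.eqOn_field_closure (f := σ) (g := σ') (s := {z : ℂ | z ^ f = 1}) (fun z hz => h z hz) hz

lemma map_closure {f : ℕ} (σ : ℂ →+* ℂ) {z : ℂ}
    (hz : z ∈ Subfield.closure {z : ℂ | z ^ f = 1}) :
    σ z ∈ Subfield.closure {z : ℂ | z ^ f = 1} := by
  have h : Subfield.closure {z : ℂ | z ^ f = 1} ≤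
      (Subfield.closure {z : ℂ | z ^ f = 1}).comap σ := by
    rw [Subfield.closure_le]
    intro w hw
    have hw' : w ^ f = 1 := hw
    refine Subfield.subset_closure ?_
    change σ w ^ f = 1
    rw [← map_pow, hw', map_one]
  exact h hz

/-- `θ` is a sum of conjugates of `χ`: a sum of functions `σ ∘ χ`, where the `σ` are automorphisms of
the field `ℂ` (repetitions are allowed). -/
def IsConjSum {G : Type} (χ θ : G → ℂ) : Prop :=
  ∃ s : Multiset (ℂ ≃+* ℂ), ∀ g, θ g = (s.map fun σ => σ (χ g)).sum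

lemma IsConjSum.refl {G : Type} (χ : G → ℂ) : IsConjSum χ χ :=
  ⟨{RingEquiv.refl ℂ}, fun g => by simp⟩

lemma IsConjSum.zero {G : Type} (χ : G → ℂ) : IsConjSum χ 0 := ⟨0, fun g => by simp⟩

lemma IsConjSum.add {G : Type} {χ θ θ' : G → ℂ} (h : IsConjSum χ θ) (h' : IsConjSum χ θ') :
    IsConjSum χ (θ + θ') := by
  obtain ⟨s, hs⟩ := h
  obtain ⟨s', hs'⟩ := h'
  exact ⟨s + s', fun g => by rw [Pi.add_apply, hs, hs', Multiset.map_add, Multiset.sum_add]⟩

lemma IsConjSum.map {G : Type} {χ θ : G → ℂ} (h : IsConjSum χ θ) (τ : ℂ ≃+* ℂ) :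
    IsConjSum χ (fun g => τ (θ g)) := by
  obtain ⟨s, hs⟩ := h
  refine ⟨s.map fun σ => σ.trans τ, fun g => ?_⟩
  change τ (θ g) = _
  rw [hs, map_multiset_sum, Multiset.map_map, Multiset.map_map]
  rfl

/-- **All characters.** -/
theorem all_case {A : ArtinInvariant M} 
    (hM : ∀ (x : M) (n : ℕ), 0 < n → x ^ n = 1 → x = 1)
    (K L : Type) [Field K] [NumberField K] [Field L]
    [NumberField L] [Algebra K L] [IsGalois K L] {χ : (L ≃ₐ[K] L) → ℂ} (hχ : IsChar χ)
    (hA : ∀ F : Subfield ℂ, IsCycField F → ∀ θ : (L ≃ₐ[K] L) → ℂ, IsChar θ → IsConjSum χ θ →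
      (∀ g, θ g ∈ F) → A.val K L θ = 1) :
    A.val K L χ = 1 := by
  have hfinL : FiniteDimensional K L := Module.Finite.of_restrictScalars_finite ℚ K L
  have hfinG : Finite (L ≃ₐ[K] L) := inferInstance
  set f := Nat.card (L ≃ₐ[K] L) with hfdef
  have hf : 0 < f := Nat.card_pos
  have hne : NeZero f := ⟨hf.ne'⟩
  have hex : ∀ c : (ZMod f)ˣ, ∃ τ : ℂ ≃+* ℂ, ∀ z : ℂ, z ^ f = 1 → τ z = z ^ (c : ZMod f).val :=
    fun c => exists_aut hf (ZMod.val_coe_unit_coprime c)
  choose τ hτ using hex
  have hmod : ∀ (z : ℂ), z ^ f = 1 → ∀ a : ℕ, z ^ (a % f) = z ^ a := by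
    intro z hz a
    conv_rhs => rw [← Nat.div_add_mod a f, pow_add, pow_mul, hz, one_pow, one_mul]
  have hτmul : ∀ (c d : (ZMod f)ˣ) (z : ℂ), z ∈ Subfield.closure {z : ℂ | z ^ f = 1} →
      τ c (τ d z) = τ (c * d) z := by
    intro c d z hz
    refine agree (f := f) (σ := ((τ c : ℂ →+* ℂ).comp (τ d : ℂ →+* ℂ))) (σ' := (τ (c * d) : ℂ →+* ℂ))
      ?_ hz
    intro w hw
    change τ c (τ d w) = τ (c * d) w
    rw [hτ d w hw, map_pow, hτ c w hw, hτ (c * d) w hw, ← pow_mul, Units.val_mul, ZMod.val_mul,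
      hmod w hw]
  have hτone : ∀ z : ℂ, z ∈ Subfield.closure {z : ℂ | z ^ f = 1} → τ 1 z = z := by
    intro z hz
    refine agree (f := f) (σ := (τ 1 : ℂ →+* ℂ)) (σ' := RingHom.id ℂ) ?_ hz
    intro w hw
    change τ 1 w = w
    rw [hτ 1 w hw, Units.val_one]
    have h1 := hmod w hw 1
    rw [pow_one] at h1
    rw [← h1]
    congr 1
    rw [ZMod.val_one_eq_one_mod]
  have hall : ∀ σ : ℂ ≃+* ℂ, ∃ c : (ZMod f)ˣ, ∀ z ∈ Subfield.closure {z : ℂ | z ^ f = 1},
      σ z = τ c z := by
    intro σ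
    obtain ⟨a, ha, h1⟩ := exists_pow σ hf
    refine ⟨ZMod.unitOfCoprime a ha, fun z hz => ?_⟩
    refine agree (f := f) (σ := (σ : ℂ →+* ℂ)) (σ' := (τ _ : ℂ →+* ℂ)) ?_ hz
    intro w hw
    change σ w = τ _ w
    rw [h1 w hw, hτ _ w hw, ZMod.coe_unitOfCoprime, ZMod.val_natCast, hmod w hw]
  have key : ∀ (Δ : Subgroup (ZMod f)ˣ) (θ : (L ≃ₐ[K] L) → ℂ), IsChar θ → IsConjSum χ θ →
      (∀ g, θ g ∈ Subfield.closure {z : ℂ | z ^ f = 1}) → (∀ c ∈ Δ, ∀ g, τ c (θ g) = θ g) →
      A.val K L θ = 1 := by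
    intro Δ
    induction Δ using WellFoundedGT.induction with
    | _ Δ ih =>
      intro θ hθ hcs hval hinv
      by_cases hcyc : IsCyclic ((ZMod f)ˣ ⧸ Δ)
      · -- the fixed field
        let F : Subfield ℂ := Subfield.closure {z : ℂ | z ^ f = 1} ⊓
          ⨅ c : Δ, RingHom.eqLocusField (τ c : ℂ →+* ℂ) (RingHom.id ℂ)
        have hmemF : ∀ z, z ∈ F ↔ z ∈ Subfield.closure {z : ℂ | z ^ f = 1} ∧ ∀ c ∈ Δ, τ c z = z := by
          intro z
          rw [Subfield.mem_inf, Subfield.mem_iInf]
          constructor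
          · rintro ⟨h1, h2⟩
            exact ⟨h1, fun c hc => h2 ⟨c, hc⟩⟩
          · rintro ⟨h1, h2⟩
            exact ⟨h1, fun c => h2 c.1 c.2⟩
        refine hA F ⟨⟨f, hf, inf_le_left⟩, ?_⟩ θ hθ hcs fun g => (hmemF _).mpr
          ⟨hval g, fun c hc => hinv c hc g⟩
        obtain ⟨x, hx⟩ := hcyc.exists_generator
        obtain ⟨c₀, rfl⟩ := QuotientGroup.mk_surjective x
        refine ⟨τ c₀, fun z hz hfix => ?_⟩
        obtain ⟨hz1, hz2⟩ := (hmemF z).mp hz
        let St : Subgroup (ZMod f)ˣ :=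
          { carrier := {c | τ c z = z}
            mul_mem' := fun {a b} ha hb => by
              change τ (a * b) z = z
              rw [← hτmul a b z hz1, show τ b z = z from hb, show τ a z = z from ha]
            one_mem' := hτone z hz1
            inv_mem' := fun {a} ha => by
              change τ a⁻¹ z = z
              have h1 := hτmul a⁻¹ a z hz1
              rw [show τ a z = z from ha, inv_mul_cancel, hτone z hz1] at h1
              exact h1 }
        have hSt : ∀ c, τ c z = z := by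
          intro c
          obtain ⟨k, hk⟩ := Subgroup.mem_zpowers_iff.mp (hx (c : (ZMod f)ˣ ⧸ Δ))
          have h1 : (c₀ ^ k)⁻¹ * c ∈ Δ := by
            rw [← QuotientGroup.eq]
            rw [← hk]
            rfl
          have h2 : (c₀ ^ k)⁻¹ * c ∈ St := hz2 _ h1
          have h3 : c₀ ^ k ∈ St := St.zpow_mem hfix k
          have h4 := St.mul_mem h3 h2
          rw [mul_inv_cancel_left] at h4
          exact h4
        have hfixall : ∀ σ : ℂ ≃+* ℂ, σ z = z := by
          intro σ
          obtain ⟨c, hc⟩ := hall σ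
          rw [hc z hz1, hSt c]
        have halg : IsAlgebraic ℚ z := algebraic_of_closure hf le_rfl hz1
        have hmem : z ∈ (algebraMap ℚ ℂ).fieldRange := by
          refine mem_of_fixed ?_ ?_ fun σ _ => hfixall σ
          · have : ((algebraMap ℚ ℂ).fieldRange : Set ℂ) = Set.range (algebraMap ℚ ℂ) := rfl
            rw [this]
            exact Set.countable_range _
          · exact halg.tower_top _
        obtain ⟨q, hq⟩ := hmem
        exact ⟨q, by rw [← hq]; simp⟩
      · -- the norms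
        have h0 := eq_one_of_norms hM Δ hcyc (fun c => A.val K L (fun g => τ c (θ g)))
          (by
            intro γ δ hδ
            change A.val K L (fun g => τ (γ * δ) (θ g)) = A.val K L (fun g => τ γ (θ g))
            congr 1
            funext g
            rw [← hτmul γ δ _ (hval g), hinv δ hδ g])
          (by
            intro D hD γ
            have hch : ∀ d ∈ (Set.toFinite (D : Set (ZMod f)ˣ)).toFinset,
                IsChar (fun g => τ (γ * d) (θ g)) := fun d _ =>
              SC.isChar_sigma hθ ((τ (γ * d)).toRingHom)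
            rw [← (val_sum A (Set.toFinite (D : Set (ZMod f)ˣ)).toFinset
              (fun d g => τ (γ * d) (θ g)) hch).2]
            refine ih D hD _ (val_sum A _ _ hch).1 ?_ ?_ ?_
            · exact Finset.sum_induction _ (IsConjSum χ) (fun _ _ => IsConjSum.add) (IsConjSum.zero χ)
                fun d _ => hcs.map (τ (γ * d))
            · intro g
              rw [Finset.sum_apply]
              exact sum_mem fun d _ => map_closure ((τ (γ * d) : ℂ →+* ℂ)) (hval g)
            · intro c hc g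
              rw [Finset.sum_apply, map_sum]
              refine Finset.sum_bij (fun d _ => c * d) ?_ ?_ ?_ ?_
              · intro d hd
                rw [Set.Finite.mem_toFinset] at hd ⊢
                exact D.mul_mem hc hd
              · intro d _ d' _ h
                exact mul_left_cancel h
              · intro d hd
                rw [Set.Finite.mem_toFinset] at hd
                exact ⟨c⁻¹ * d, by
                  rw [Set.Finite.mem_toFinset]
                  exact D.mul_mem (D.inv_mem hc) hd, by rw [mul_inv_cancel_left]⟩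
              · intro d _
                rw [hτmul c (γ * d) _ (hval g), mul_left_comm c γ d]) 1
        have h1 : (fun g => τ 1 (θ g)) = θ := by
          funext g
          exact hτone _ (hval g)
        have h2 : A.val K L (fun g => τ 1 (θ g)) = 1 := h0
        rwa [h1] at h2
  refine key ⊥ χ hχ (IsConjSum.refl χ) (fun g => isChar_values hχ g) fun c hc g => ?_
  rw [Subgroup.mem_bot] at hc
  rw [hc]
  exact hτone _ (isChar_values hχ g)

end Pool.Agent.J4.H3.SC
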