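import Pool.Agent.J4.H3.SC.Cyc

/-!
# Relations between L-functions and between Stark's numbers from inductive invariants
-/

set_option autoImplicit false
set_option linter.unusedSectionVars false

namespace Pool.Agent.J4.H3.SC

open NumberField NumberField.ComplexEmbedding Pool.Agent.R389 Pool.Agent.K4H74 Pool.Agent.K4H74.ST
  Pool.Agent.K4H77.SL Pool.Agent.K4H34 Pool.Agent.K4H74.SK Pool.Agent.K4H34.AL
  Pool.Agent.J4.H37.Stark

/-- If every inductive invariant with values in a torsion-free group which is trivial on `T` is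
trivial on `x`, then a power of the value of any inductive invariant at `x` is a product of powers of
its values on `T`. -/
theorem power_of {M : Type} [CommGroup M] (A : ArtinInvariant M) (T : Pair → Prop) {x : Pair}
    (h : ∀ (M' : Type) [CommGroup M'] (B : ArtinInvariant M'),
      (∀ (y : M') (n : ℕ), 0 < n → y ^ n = 1 → y = 1) →
      (∀ y : Pair, T y → pval B y = 1) → pval B x = 1) :
    ∃ n : ℕ, 0 < n ∧ ∃ (r : ℕ) (y : Fin r → Pair) (k : Fin r → ℤ), (∀ i, T (y i)) ∧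
      pval A x ^ n = ∏ i, pval A (y i) ^ k i := by
  let P : Subgroup M := Subgroup.closure {y : M | ∃ x : Pair, T x ∧ y = pval A x}
  let B : ArtinInvariant (M ⧸ P) := mapInv (QuotientGroup.mk' P) A
  have hB : ∀ x : Pair, T x → pval B x = 1 := by
    intro x hx
    exact (QuotientGroup.eq_one_iff (N := P) _).mpr (Subgroup.subset_closure ⟨x, hx, rfl⟩)
  let C : ArtinInvariant ((M ⧸ P) ⧸ CommGroup.torsion (M ⧸ P)) :=
    mapInv (QuotientGroup.mk' (CommGroup.torsion (M ⧸ P))) B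
  have h1 : pval C x = 1 := by
    refine h _ C ?_ ?_
    · intro y n hn hy
      obtain ⟨z, rfl⟩ := QuotientGroup.mk_surjective y
      have h2 : z ^ n ∈ CommGroup.torsion (M ⧸ P) := by
        rw [← QuotientGroup.eq_one_iff]
        exact hy
      have h3 : z ∈ CommGroup.torsion (M ⧸ P) := (isOfFinOrder_pow.mp h2).resolve_right hn.ne'
      exact (QuotientGroup.eq_one_iff _).mpr h3
    · intro y hy
      change QuotientGroup.mk' _ (pval B y) = 1
      rw [hB y hy, map_one]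
  have h2 : pval B x ∈ CommGroup.torsion (M ⧸ P) := (QuotientGroup.eq_one_iff _).mp h1
  obtain ⟨n, hn, h3⟩ := isOfFinOrder_iff_pow_eq_one.mp h2
  refine ⟨n, hn, closure_form A T ?_⟩
  have h4 : pval B x = QuotientGroup.mk' P (pval A x) := rfl
  rw [h4, ← map_pow] at h3
  exact (QuotientGroup.eq_one_iff _).mp h3

/-- `a` is one of the numbers `A(χ, φ)`. -/
def IsStarkNumber (c : Pair → ℂ) (x : Pair) (a : ℂ) : Prop :=
  ∃ Λ : Y x.1 →ₗ[ℂ] Y x.1, IsStarkMap Λ ∧ IsA c Λ x.2 a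

/-- There are `n ≥ 1`, characters `y_i` with the property `T` and integers `k_i` with
`L(s, χ)^n = ∏ L(s, y_i)^(k_i)` (for the logarithms, `Re s > 1`), where `x` stands for the character
`χ` of the Galois group of a Galois extension; the same is true for the leading coefficients at
`s = 0`, for the defects for all automorphisms `σ` of `ℂ`, and, up to an algebraic factor, for
Stark's numbers `A(χ, φ)`. -/
def PowerIsProduct (c : Pair → ℂ) (T : Pair → Prop) (x : Pair) : Prop :=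
  ∃ n : ℕ, 0 < n ∧
    ∃ (r : ℕ) (y : Fin r → Pair) (k : Fin r → ℤ), (∀ i, T (y i)) ∧
      (∀ s : ℂ, 1 < s.re → ∀ (l : ℂ) (l' : Fin r → ℂ), HasSum (logTerm x.2 s) l →
        (∀ i, HasSum (logTerm (y i).2 s) (l' i)) → n * l = ∑ i, k i * l' i) ∧
      c x ^ n = ∏ i, c (y i) ^ k i ∧
      (∀ (σ : ℂ ≃+* ℂ) (d : ℂˣ) (d' : Fin r → ℂˣ), IsDefect c σ x.2 d →
        (∀ i, IsDefect c σ (y i).2 (d' i)) → d ^ n = ∏ i, d' i ^ k i) ∧
      ∀ (a : ℂ) (a' : Fin r → ℂ), IsStarkNumber c x a → (∀ i, IsStarkNumber c (y i) (a' i)) →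
        ∃ α : ℂ, IsAlgebraic ℚ α ∧ a ^ n = α * ∏ i, a' i ^ k i

theorem powerIsProduct {c : Pair → ℂ} (hc : IsLeading c) {T : Pair → Prop}
    (hT : ∀ y, T y → IsChr y.2) {x : Pair} (hx : IsChr x.2)
    (h : ∀ (M' : Type) [CommGroup M'] (B : ArtinInvariant M'),
      (∀ (y : M') (n : ℕ), 0 < n → y ^ n = 1 → y = 1) →
      (∀ y : Pair, T y → pval B y = 1) → pval B x = 1) : PowerIsProduct c T x := by
  obtain ⟨n, hn, r, y, k, hy, h⟩ := power_of (allInv hc) T h
  obtain ⟨r1, r2, r3, r4⟩ := all_rel hc h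
  refine ⟨n, hn, r, y, k, hy, fun s hs l l' hl hl' => log_rel r1 hs hl hl', ?_, ?_, ?_⟩
  · have h1 := congrArg (Units.val) r2
    rw [Units.val_pow_eq_pow_val, pval_lead hc (x := x) hx, Units.coe_prod] at h1
    rw [h1]
    exact Finset.prod_congr rfl fun i _ => by
      rw [Units.val_zpow_eq_zpow_val, pval_lead hc (hT _ (hy i))]
  · intro σ d d' hd hd'
    have h1 := r3 σ
    rw [pval_defect hc σ (x := x) hx hd] at h1
    rw [h1]
    exact Finset.prod_congr rfl fun i _ => by rw [pval_defect hc σ (hT _ (hy i)) (hd' i)]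
  · rintro a a' ⟨Λ, hΛ, ha⟩ ha'
    choose Λ' hΛ' ha' using ha'
    have ha0 : a ≠ 0 := isA_ne hc (x := x) hx hΛ ha
    have ha0' : ∀ i, a' i ≠ 0 := fun i => isA_ne hc (hT _ (hy i)) (hΛ' i) (ha' i)
    have e1 : pval (algInv (leadInv hc)) x = (Units.mk0 a ha0 : ℂˣ) :=
      pval_alg hc (x := x) hx hΛ ha
    have e2 : ∀ i, pval (algInv (leadInv hc)) (y i) = (Units.mk0 (a' i) (ha0' i) : ℂˣ) :=
      fun i => pval_alg hc (hT _ (hy i)) (hΛ' i) (ha' i)
    have h1 : ((Units.mk0 a ha0 ^ n : ℂˣ) : ℂˣ ⧸ algU)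
        = ((∏ i, Units.mk0 (a' i) (ha0' i) ^ k i : ℂˣ) : ℂˣ ⧸ algU) := by
      change (QuotientGroup.mk' algU) _ = (QuotientGroup.mk' algU) _
      rw [map_pow, map_prod]
      change ((Units.mk0 a ha0 : ℂˣ) : ℂˣ ⧸ algU) ^ n = _
      rw [← e1, r4]
      exact Finset.prod_congr rfl fun i _ => by rw [map_zpow, e2]; rfl
    rw [QuotientGroup.eq, mem_algU] at h1
    set P : ℂˣ := ∏ i, Units.mk0 (a' i) (ha0' i) ^ k i with hP
    refine ⟨((P⁻¹ * Units.mk0 a ha0 ^ n : ℂˣ) : ℂ), ?_, ?_⟩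
    · have h2 : P⁻¹ * Units.mk0 a ha0 ^ n = ((Units.mk0 a ha0 ^ n)⁻¹ * P)⁻¹ := by
        rw [mul_inv_rev, inv_inv]
      rw [h2, Units.val_inv_eq_inv_val]
      exact h1.inv
    · have h2 : ∏ i, a' i ^ k i = (P : ℂ) := by
        rw [hP, Units.coe_prod]
        exact Finset.prod_congr rfl fun i _ => by
          rw [Units.val_zpow_eq_zpow_val, Units.val_mk0]
      rw [h2, ← Units.val_mul, mul_comm, mul_inv_cancel_left, Units.val_pow_eq_pow_val,
        Units.val_mk0]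

/-- the defects are roots of unity if this is so on `T` -/
theorem defect_finOrder {c : Pair → ℂ} (hc : IsLeading c) {T : Pair → Prop}
    (hT : ∀ y, T y → IsChr y.2) {x : Pair} (h : PowerIsProduct c T x) (σ : ℂ ≃+* ℂ)
    (hb : ∀ y, T y → ∀ d : ℂˣ, IsDefect c σ y.2 d → IsOfFinOrder d) {d : ℂˣ}
    (hd : IsDefect c σ x.2 d) : IsOfFinOrder d := by
  obtain ⟨n, hn, r, y, k, hy, -, -, h, -⟩ := h
  choose d' hd' _ using fun i => existsUnique_defect hc σ (hT _ (hy i))
  have h1 := h σ d d' hd hd'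
  have h2 : d ^ n ∈ CommGroup.torsion ℂˣ := by
    rw [h1]
    exact Subgroup.prod_mem _ fun i _ => Subgroup.zpow_mem _ (hb _ (hy i) _ (hd' i)) _
  exact (isOfFinOrder_pow.mp h2).resolve_right hn.ne'

/-- the numbers `A(χ, φ)` are algebraic if this is so on `T` -/
theorem stark_algebraic {c : Pair → ℂ} (hc : IsLeading c) {T : Pair → Prop}
    (hT : ∀ y, T y → IsChr y.2) {x : Pair} (h : PowerIsProduct c T x)
    (hb : ∀ y, T y → ∀ a : ℂ, IsStarkNumber c y a → IsAlgebraic ℚ a) {a : ℂ}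
    (ha : IsStarkNumber c x a) : IsAlgebraic ℚ a := by
  obtain ⟨n, hn, r, y, k, hy, -, -, -, h⟩ := h
  have h0 : ∀ i, ∃ a', IsStarkNumber c (y i) a' := by
    intro i
    have h' := isChr_iff.mp (hT _ (hy i))
    obtain ⟨φ⟩ := SC.exists_StarkMap (L := (y i).1.L) (y i).1.K
    obtain ⟨a, ha⟩ := SC.IsA.exists (leadInv hc) φ h'
    obtain ⟨Λ, hΛ, hφ⟩ := exists_new φ
    exact ⟨a, Λ, hΛ, isA_new hc hφ h' ha⟩
  choose a' ha' using h0
  obtain ⟨α, hα, h1⟩ := h a a' ha ha'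
  refine IsAlgebraic.of_pow hn ?_
  rw [h1, ← mem_QB]
  exact mul_mem (mem_QB.mpr hα) (prod_mem fun i _ =>
    zpow_mem (mem_QB.mpr (hb _ (hy i) _ (ha' i))) _)

end Pool.Agent.J4.H3.SC
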